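import Pool.Agent.Helper50.D71.NZ

/-!
# MP_d71e86_ag, block D9: primes of `k[s,y,v]` strictly inside `(v, F)`
-/

open MvPolynomial

universe u

namespace Helper50.D71

section

variable (k : Type u) [Field k]

/-- polynomial versions of `F, z₁, z₀, P₀, κ_ω, v⁴ - s z₁³` -/
noncomputable def Fp : MvPolynomial (Fin 3) k := X 1 ^ 3 - 1 - X 0 ^ 2
noncomputable def z1p : MvPolynomial (Fin 3) k := -(X 0 ^ 2 * X 2 + Fp k)
noncomputable def z0p : MvPolynomial (Fin 3) k := -(X 0 * z1p k) - X 1 * X 2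
noncomputable def P0p : MvPolynomial (Fin 3) k := X 2 + X 1 ^ 2 * z0p k
noncomputable def kapp (ω : k) : MvPolynomial (Fin 3) k :=
  z1p k ^ 3 + (z0p k + C ω * X 2) * z1p k * X 0 + (z0p k + C ω * X 2) ^ 2 * X 2
noncomputable def Yrp : MvPolynomial (Fin 3) k := X 2 ^ 4 - X 0 * z1p k ^ 3

theorem generization [IsAlgClosed k] [CharZero k] (p : Ideal (MvPolynomial (Fin 3) k))
    [hpp : p.IsPrime] (hp : p < Ideal.span {X 2, X 1 ^ 3 - 1 - X 0 ^ 2}) :
    (X 2 ∉ p ∧ Yrp k ∉ p) ∨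
    ((X 0 : MvPolynomial (Fin 3) k) ∉ p ∧ (X 1 ^ 3 - 1 : MvPolynomial (Fin 3) k) ∉ p ∧ Fp k ∉ p ∧
      z1p k ∉ p ∧ P0p k ∉ p ∧ ∀ ω : k, ω ^ 3 = 1 → kapp k ω ∉ p) := by
  -- a point of the curve `v = F = 0`
  obtain ⟨s0, hs0⟩ := IsAlgClosed.exists_pow_nat_eq (7 : k) (n := 2) (by norm_num)
  have hs0' : s0 ≠ 0 := by
    rintro rfl
    norm_num at hs0
  set e : MvPolynomial (Fin 3) k →+* k := eval ![s0, 2, 0] with he
  have e0 : e (X 0) = s0 := by simp [he]
  have e1 : e (X 1) = 2 := by simp [he]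
  have e2 : e (X 2) = 0 := by simp [he]
  have eC : ∀ c : k, e (C c) = c := by intro c; simp [he]
  have hpe : ∀ f ∈ p, e f = 0 := by
    intro f hf
    have h1 : Ideal.span {(X 2 : MvPolynomial (Fin 3) k), X 1 ^ 3 - 1 - X 0 ^ 2} ≤
        RingHom.ker e := by
      rw [Ideal.span_le]
      rintro x (rfl | rfl)
      · exact e2
      · show e _ = 0
        simp only [map_sub, map_pow, e0, e1, map_one, hs0]
        norm_num
    exact h1 (hp.le hf)
  have nots : (X 0 : MvPolynomial (Fin 3) k) ∉ p := fun h => hs0' (by rw [← e0]; exact hpe _ h)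
  have noty : (X 1 : MvPolynomial (Fin 3) k) ∉ p := fun h => by
    have := hpe _ h
    rw [e1] at this
    exact absurd this (by norm_num)
  have notfb : (X 1 ^ 3 - 1 : MvPolynomial (Fin 3) k) ∉ p := fun h => by
    have := hpe _ h
    simp only [map_sub, map_pow, e1, map_one] at this
    exact absurd this (by norm_num)
  -- `v ∈ p` and `F ∈ p` is impossible
  have key : (X 2 : MvPolynomial (Fin 3) k) ∈ p → Fp k ∈ p → False := by
    intro h1 h2
    apply hp.not_ge
    rw [Ideal.span_le]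
    rintro x (rfl | rfl)
    · exact h1
    · exact h2
  have key' : (X 2 : MvPolynomial (Fin 3) k) ∈ p → z1p k ∈ p → False := by
    intro h1 h2
    apply key h1
    have : Fp k = -z1p k - X 0 ^ 2 * X 2 := by simp only [z1p]; ring
    rw [this]
    exact p.sub_mem (p.neg_mem h2) (p.mul_mem_left _ h1)
  -- prime ideal helper
  have pr : ∀ {a b : MvPolynomial (Fin 3) k}, a * b ∈ p → a ∉ p → b ∈ p := by
    intro a b h ha
    exact (hpp.mem_or_mem h).resolve_left ha
  by_cases hv : (X 2 : MvPolynomial (Fin 3) k) ∈ p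
  · right
    refine ⟨nots, notfb, fun h => key hv h, fun h => key' hv h, ?_, ?_⟩
    · intro h
      apply key hv
      have h3 : (X 0 * X 1 ^ 2) * Fp k =
          P0p k - X 2 * (1 + X 1 ^ 2 * X 0 ^ 3 - X 1 ^ 3) := by
        simp only [P0p, z0p, z1p]; ring
      refine pr (a := X 0 * X 1 ^ 2) ?_ ?_
      · rw [h3]
        exact p.sub_mem h (p.mul_mem_right _ hv)
      · intro h4
        rcases hpp.mem_or_mem h4 with h5 | h5
        · exact nots h5
        · exact noty (hpp.mem_of_pow_mem _ h5)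
    · intro ω hω h
      apply key hv
      have hF : (X 1 ^ 3 - 1 : MvPolynomial (Fin 3) k) = Fp k + X 0 ^ 2 := by
        simp only [Fp]; ring
      have h3 : Fp k ^ 2 * (X 1 ^ 3 - 1) =
          X 2 * (-(3 * X 0 ^ 2 * Fp k ^ 2 + 3 * X 0 ^ 4 * X 2 * Fp k + X 0 ^ 6 * X 2 ^ 2)
            - X 0 * (X 0 ^ 3 * Fp k + (X 0 ^ 3 + C ω - X 1) * X 0 ^ 2 * X 2
              + (X 0 ^ 3 + C ω - X 1) * Fp k) + (z0p k + C ω * X 2) ^ 2) - kapp k ω := by
        rw [hF]
        simp only [kapp, z0p, z1p]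
        ring
      have h4 : Fp k ^ 2 * (X 1 ^ 3 - 1) ∈ p := by
        rw [h3]
        exact p.sub_mem (p.mul_mem_right _ hv) h
      rw [mul_comm] at h4
      exact hpp.mem_of_pow_mem _ (pr h4 notfb)
  · by_cases hY : Yrp k ∈ p
    · right
      have hz : z1p k ∉ p := by
        intro h
        apply hv
        apply hpp.mem_of_pow_mem 4
        have : (X 2 ^ 4 : MvPolynomial (Fin 3) k) = Yrp k + X 0 * z1p k ^ 3 := by
          simp only [Yrp]; ring
        rw [this]
        exact p.add_mem hY (p.mul_mem_left _ (p.pow_mem_of_mem h 3 (by norm_num)))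
      refine ⟨nots, notfb, ?_, hz, ?_, ?_⟩
      · intro h
        -- `F ∈ p`: `v³ (v + s⁷) ∈ p`
        have h3 : X 2 ^ 3 * (X 2 + X 0 ^ 7) = Yrp k - X 0 * (3 * X 0 ^ 4 * X 2 ^ 2 +
            3 * X 0 ^ 2 * X 2 * Fp k + Fp k ^ 2) * Fp k := by
          simp only [Yrp, z1p]; ring
        have h4 : X 2 ^ 3 * (X 2 + X 0 ^ 7) ∈ p := by
          rw [h3]
          exact p.sub_mem hY (p.mul_mem_left _ h)
        have h5 := hpe _ (pr h4 (fun h => hv (hpp.mem_of_pow_mem _ h)))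
        simp only [map_add, map_pow, e0, e2, zero_add] at h5
        exact hs0' (pow_eq_zero_iff (by norm_num) |>.1 h5)
      · intro h
        have h3 : X 2 ^ 3 * ((1 - X 1 ^ 3) ^ 3 - X 0 ^ 2 * X 1 ^ 6 * X 2) =
            P0p k * ((X 2 * (1 - X 1 ^ 3)) ^ 2 + (X 2 * (1 - X 1 ^ 3)) * (X 0 * X 1 ^ 2 * z1p k)
              + (X 0 * X 1 ^ 2 * z1p k) ^ 2) - X 0 ^ 2 * X 1 ^ 6 * Yrp k := by
          simp only [P0p, Yrp, z0p]; ring
        have h4 : X 2 ^ 3 * ((1 - X 1 ^ 3) ^ 3 - X 0 ^ 2 * X 1 ^ 6 * X 2) ∈ p := by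
          rw [h3]
          exact p.sub_mem (p.mul_mem_right _ h) (p.mul_mem_left _ hY)
        have h5 := hpe _ (pr h4 (fun h => hv (hpp.mem_of_pow_mem _ h)))
        simp only [map_sub, map_mul, map_one, map_pow, e0, e1, e2, mul_zero] at h5
        norm_num at h5
      · intro ω hω h
        -- `v κ = Z M + c² Y`
        obtain ⟨M, hM⟩ : ∃ M, M = X 0 * (C ω - X 1) * (1 - 2 * X 2) * X 2 ^ 2
            + (-(X 0 ^ 2 * (1 - X 2))) * X 2 * z1p k
            + (X 0 * (C ω - X 1) ^ 2 + X 2) * z1p k ^ 2 := ⟨_, rfl⟩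
        have h3 : z1p k * M = X 2 * kapp k ω - (C ω - X 1) ^ 2 * Yrp k := by
          rw [hM]
          simp only [kapp, Yrp, z0p]; ring
        have h4 : M ∈ p := by
          refine pr (a := z1p k) ?_ hz
          rw [h3]
          exact p.sub_mem (p.mul_mem_left _ h) (p.mul_mem_left _ hY)
        obtain ⟨a, ha⟩ : ∃ a : MvPolynomial (Fin 3) k,
          a = X 0 * (C ω - X 1) * (1 - 2 * X 2) := ⟨_, rfl⟩
        obtain ⟨b, hb⟩ : ∃ b : MvPolynomial (Fin 3) k, b = -(X 0 ^ 2 * (1 - X 2)) := ⟨_, rfl⟩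
        obtain ⟨c, hc⟩ : ∃ c : MvPolynomial (Fin 3) k,
          c = X 0 * (C ω - X 1) ^ 2 + X 2 := ⟨_, rfl⟩
        rw [← ha, ← hb, ← hc] at hM
        have h5 : X 2 ^ 4 * (X 0 ^ 2 * a ^ 3 + X 2 * (X 0 * b ^ 3 + c ^ 3 * X 2
            - 3 * X 0 * a * b * c)) =
            X 0 * (X 0 * X 2 ^ 2 * a ^ 2 - b * c * X 2 ^ 3
              + (c ^ 2 * X 2 - X 0 * a * b) * X 2 * z1p k
              + X 0 * (b ^ 2 - a * c) * z1p k ^ 2) * M
            + (b * X 0 * X 2 * (b ^ 2 - a * c) + c * X 2 * (c ^ 2 * X 2 - X 0 * a * b)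
              + c * X 0 * (b ^ 2 - a * c) * z1p k) * Yrp k := by
          rw [hM]
          simp only [Yrp]; ring
        have h6 : X 2 ^ 4 * (X 0 ^ 2 * a ^ 3 + X 2 * (X 0 * b ^ 3 + c ^ 3 * X 2
            - 3 * X 0 * a * b * c)) ∈ p := by
          rw [h5]
          exact p.add_mem (p.mul_mem_left _ h4) (p.mul_mem_left _ hY)
        have h7 := hpe _ (pr h6 (fun h => hv (hpp.mem_of_pow_mem _ h)))
        rw [ha] at h7
        simp only [map_sub, map_add, map_mul, map_one, map_pow, e0, e1, e2, eC, mul_zero,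
          zero_mul, add_zero, sub_zero, mul_one] at h7
        have h8 : ω = 2 := by
          rcases mul_eq_zero.1 h7 with h8 | h8
          · exact absurd (pow_eq_zero_iff (by norm_num) |>.1 h8) hs0'
          · have h9 := pow_eq_zero_iff (by norm_num) |>.1 h8
            rcases mul_eq_zero.1 h9 with h10 | h10
            · exact absurd h10 hs0'
            · exact sub_eq_zero.1 h10
        rw [h8] at hω
        norm_num at hω
    · left
      exact ⟨hv, hY⟩

end

end Helper50.D71
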