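import Pool.Agent.Helper60.D71.KeyA2
import Pool.Agent.Helper48.D71.KeyA1
import Pool.Agent.Helper48.D71.KeyA3
import Pool.Agent.Helper48.D71.KeyB

/-!
# MP_d71e86_ag, block D1: the key lemma (assembly)
-/

open MvPolynomial

universe u

namespace Helper50.D71

theorem key_a {k : Type u} [Field k] [IsAlgClosed k] [CharZero k] (φ : KK k)
    (hE : ∃ P G, IsQuot k (tW k) φ P G ∧ G ∉ Ideal.span {X 2, X 1 ^ 3 - 1 - X 0 ^ 2})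
    (hR : ∀ ω : k, ω ^ 3 = 1 → ∃ P G, IsQuot k (tW k) φ P G ∧ G ∉ Ideal.span {X 0, X 1 - C ω}) :
    ∃ h g, IsQuot k (tP k) φ h g ∧ IsRelPrime g h ∧ g ≠ 0 ∧
      ∃ m ∈ g.support, m 1 + 2 * m 2 ≤ m 0 := by
  obtain ⟨G, β, l, a, h, g, c, h1, h2, h3, h4, h5, h6, h7, h8, h9, h10⟩ := key_a1 φ hE hR
  obtain ⟨c0, k1, k2, k3, k4⟩ := key_a2 G β a c h1 h2 h3 h9 h10
  exact ⟨h, g, h5, h6, h7, key_a3 G β l g c0 k1 h3 h4 h7 (k2 ▸ h8) k3 k4⟩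

theorem key_lemma (k : Type u) [Field k] [IsAlgClosed k] [CharZero k] (φ : KK k)
    (hE : ∃ P G, IsQuot k (tW k) φ P G ∧ G ∉ Ideal.span {X 2, X 1 ^ 3 - 1 - X 0 ^ 2})
    (hR : ∀ ω : k, ω ^ 3 = 1 → ∃ P G, IsQuot k (tW k) φ P G ∧ G ∉ Ideal.span {X 0, X 1 - C ω})
    (hc : ∃ P G, IsQuot k (tB k) φ P G ∧ constantCoeff G ≠ 0 ∧ constantCoeff P = 0) :
    ∃ P G, IsQuot k (tB k) φ P G ∧ constantCoeff G ≠ 0 ∧ P ∈ Ideal.span {X 0, X 1} := by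
  obtain ⟨h, g, h1, h2, h3, h4⟩ := key_a φ hE hR
  exact key_b k φ h g h1 h2 h3 h4 hc

end Helper50.D71
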