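import Pool.Agent.Helper60.D71.KeyA2b

/-!
# MP_d71e86_ag, block D1a, steps 6-8: `key_a2`
-/

open MvPolynomial

universe u

namespace Helper50.D71

namespace KA2

variable {k : Type u} [Field k]

lemma rootMultiplicity_fy_le [CharZero k] {ω : k} (hω : ω ^ 3 = 1) :
    (fy k).rootMultiplicity ω ≤ 1 := by
  by_contra hcon
  push Not at hcon
  have h1 := (Polynomial.one_lt_rootMultiplicity_iff_isRoot (fy_ne (k := k))).1 hcon
  have h2 := h1.2
  simp only [fy, Polynomial.IsRoot, Polynomial.derivative_sub, Polynomial.derivative_X_pow,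
    Polynomial.derivative_one, Polynomial.eval_sub, Polynomial.eval_mul, Polynomial.eval_pow,
    Polynomial.eval_X, Polynomial.eval_C, Polynomial.eval_zero] at h2
  norm_num at h2
  have h3 : ω = 0 := h2
  rw [h3] at hω
  norm_num at hω

lemma root_fy {c0 : Polynomial k} (hc0 : c0 ≠ 0) {a : ℕ} (hca : c0 ∣ fy k ^ a) {ω : k}
    (hω : ω ∈ c0.roots) : ω ^ 3 = 1 := by
  rw [Polynomial.mem_roots hc0] at hω
  have h1 := hω.dvd hca
  rw [Polynomial.IsRoot, Polynomial.eval_pow] at h1
  have h2 : Polynomial.eval ω (fy k) = 0 := by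
    by_contra h
    exact pow_ne_zero a h h1
  simpa [fy, sub_eq_zero] using h2

/-! ### step 7 (i) -/

/-- `q ↦ 0` : `y ↦ y`, `p ↦ p` -/
noncomputable def rho (k : Type u) [Field k] : MvPolynomial (Fin 3) k →ₐ[k] TT k :=
  aeval ![yT k, Polynomial.X, 0]

/-- `G(0, y, v)` in `k[y][v]` -/
noncomputable def GV (G : MvPolynomial (Fin 3) k) : TT k := aeval ![0, yT k, Polynomial.X] G

/-- `G(s, y, 0)` in `k[y][s]` -/
noncomputable def GS (G : MvPolynomial (Fin 3) k) : TT k := aeval ![Polynomial.X, yT k, 0] G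

/-- composition with `g` -/
lemma comp_aeval {x y v x' y' v' g : TT k} (hx : x.comp g = x') (hy : y.comp g = y')
    (hv : v.comp g = v') (G : MvPolynomial (Fin 3) k) :
    Polynomial.comp (aeval ![x, y, v] G : TT k) g = aeval ![x', y', v'] G := by
  subst hx hy hv
  rw [aeval_three, aeval_three]
  rw [← Polynomial.coe_compRingHom_apply, map_sum]
  refine Finset.sum_congr rfl fun m _ => ?_
  have h : ((algebraMap k (TT k)) (coeff m G)) = Polynomial.C (Polynomial.C (coeff m G)) := rfl
  rw [h]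
  simp only [Polynomial.coe_compRingHom_apply, Polynomial.mul_comp, Polynomial.pow_comp,
    Polynomial.C_comp]

lemma rho_g1 (β : ℕ) (G : MvPolynomial (Fin 3) k) :
    rho k (g1 β G) = (GV G).comp (fT k * Polynomial.X) := by
  have h1 : rho k (f1 k) = fT k := by
    simp only [f1, rho, map_sub, map_pow, aeval_X, map_one, Matrix.cons_val_zero]
    exact yT_pow
  have h2 : rho k (X 2) = 0 := by simp [rho]
  have h3 : rho k (X 0) = yT k := by simp [rho]
  have h4 : rho k (X 1) = Polynomial.X := by simp [rho]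
  have h5 : rho k (N1 k) = 1 := by rw [N1]; simp [h2]
  have h6 : rho k (Fh1 k) = 1 := by rw [Fh1]; simp [h2]
  have h7 : rho k (b1 k) = -Polynomial.X := by rw [b1]; simp [h2, h4]
  have h8 : rho k (X 2 * f1 k) = 0 := by rw [map_mul, h2, zero_mul]
  have h9 : rho k (-(b1 k * f1 k * Fh1 k)) = fT k * Polynomial.X := by
    rw [map_neg, map_mul, map_mul, h1, h6, h7]; ring
  rw [g1, map_hev, h5, hev_one, GV,
    comp_aeval (x' := 0) (y' := yT k) (v' := fT k * Polynomial.X) (by simp) (by simp [yT])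
      (by simp), h3, h8, h9]

lemma GT_eq (G : MvPolynomial (Fin 3) k) : GT G = (GS G).comp (fT k * Polynomial.X) := by
  rw [GS, comp_aeval (x' := Polynomial.X * fT k) (y' := yT k) (v' := 0)
    (by simp [mul_comm]) (by simp [yT]) (by simp), GT]

lemma aeval_yT (c : Polynomial k) : Polynomial.aeval (yT k) c = Polynomial.C c := by
  induction c using Polynomial.induction_on' with
  | add p q hp hq => rw [map_add, map_add, hp, hq]
  | monomial n a =>
    rw [← Polynomial.C_mul_X_pow_eq_monomial]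
    simp [yT, Polynomial.C_pow]

lemma dvd_GV {c0 : Polynomial k} {β : ℕ} {G : MvPolynomial (Fin 3) k}
    (h : Polynomial.aeval (X 0) c0 ∣ g1 β G) (j : ℕ) : c0 ∣ (GV G).coeff j * fy k ^ j := by
  have h1 := map_dvd (rho k) h
  have h2 : rho k (Polynomial.aeval (X 0) c0) = Polynomial.C c0 := by
    rw [← Polynomial.aeval_algHom_apply]
    have h4 : rho k (X 0) = yT k := by simp [rho]
    rw [h4, aeval_yT]
  rw [h2, rho_g1, fT, Polynomial.C_dvd_iff_dvd_coeff] at h1
  have := h1 j
  rwa [Polynomial.comp_C_mul_X_coeff] at this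

lemma dvd_GS {c0 : Polynomial k} {G : MvPolynomial (Fin 3) k}
    (h : Polynomial.C c0 ∣ GT G) (j : ℕ) : c0 ∣ (GS G).coeff j * fy k ^ j := by
  rw [GT_eq, fT, Polynomial.C_dvd_iff_dvd_coeff] at h
  have := h j
  rwa [Polynomial.comp_C_mul_X_coeff] at this

lemma repr_R (ω : k) (G : MvPolynomial (Fin 3) k) :
    G - Polynomial.aeval (X 2) (aeval ![0, Polynomial.C ω, Polynomial.X] G : Polynomial k) ∈
      Ideal.span {(X 0 : MvPolynomial (Fin 3) k), X 1 - C ω} := by
  set I := Ideal.span {(X 0 : MvPolynomial (Fin 3) k), X 1 - C ω} with hI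
  have hX0 : (X 0 : MvPolynomial (Fin 3) k) ∈ I := Ideal.subset_span (by simp)
  have hX1 : (X 1 - C ω : MvPolynomial (Fin 3) k) ∈ I := Ideal.subset_span (by simp)
  induction G using MvPolynomial.induction_on with
  | C a => simp [MvPolynomial.algebraMap_eq]
  | add p q hp hq =>
    have := I.add_mem hp hq
    convert this using 1
    simp only [map_add]
    ring
  | mul_X p i hp =>
    have hm := I.mul_mem_right (X i) hp
    rw [map_mul, map_mul, aeval_X]
    fin_cases i
    · simpa using I.mul_mem_left p hX0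
    · have h5 := I.add_mem hm (I.mul_mem_left
        (Polynomial.aeval (X 2) (aeval ![0, Polynomial.C ω, Polynomial.X] p : Polynomial k)) hX1)
      convert h5 using 1
      simp [MvPolynomial.algebraMap_eq]
      ring
    · convert hm using 1
      simp
      ring

lemma GV_map (ω : k) (G : MvPolynomial (Fin 3) k) :
    (GV G).map (Polynomial.evalRingHom ω) =
      (aeval ![0, Polynomial.C ω, Polynomial.X] G : Polynomial k) := by
  rw [GV, aeval_three, aeval_three, ← Polynomial.coe_mapRingHom, map_sum]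
  refine Finset.sum_congr rfl fun m _ => ?_
  have h : ((algebraMap k (TT k)) (coeff m G)) = Polynomial.C (Polynomial.C (coeff m G)) := rfl
  rw [h]
  simp [yT]

lemma exists_j {β : ℕ} {G : MvPolynomial (Fin 3) k} (hβ : degreeOf 2 G ≤ β) {ω : k}
    (hR : G ∉ Ideal.span {(X 0 : MvPolynomial (Fin 3) k), X 1 - C ω}) :
    ∃ j ≤ β, Polynomial.eval ω ((GV G).coeff j) ≠ 0 := by
  by_contra hcon
  push Not at hcon
  have hdeg : (GV G).natDegree ≤ β := by
    rw [GV, aeval_three]
    refine Polynomial.natDegree_sum_le_of_forall_le _ _ fun m hm => ?_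
    have h1 : m 2 ≤ β := (MvPolynomial.le_degreeOf_of_mem_support 2 hm).trans hβ
    refine le_trans Polynomial.natDegree_mul_le ?_
    rw [Polynomial.natDegree_X_pow]
    have h2 : ((algebraMap k (TT k)) (coeff m G) * 0 ^ m 0 * yT k ^ m 1) =
        Polynomial.C (Polynomial.C (coeff m G) * 0 ^ m 0 * Polynomial.X ^ m 1) := by
      simp [yT]
    rw [h2, Polynomial.natDegree_C]
    omega
  have h0 : (GV G).map (Polynomial.evalRingHom ω) = 0 := by
    ext j
    rw [Polynomial.coeff_map, Polynomial.coeff_zero]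
    rcases le_or_gt j β with h | h
    · exact hcon j h
    · rw [Polynomial.coeff_eq_zero_of_natDegree_lt (hdeg.trans_lt h), map_zero]
  have h1 := repr_R ω G
  rw [← GV_map, h0, map_zero, sub_zero] at h1
  exact hR h1

lemma rootMultiplicity_pow' (p : Polynomial k) (n : ℕ) (ω : k) :
    (p ^ n).rootMultiplicity ω = n * p.rootMultiplicity ω := by
  classical
  rw [← Polynomial.count_roots, ← Polynomial.count_roots, Polynomial.roots_pow,
    Multiset.count_nsmul]

lemma mult_le_beta [CharZero k] {c0 : Polynomial k} {β : ℕ}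
    {G : MvPolynomial (Fin 3) k} (hβ : degreeOf 2 G ≤ β) {ω : k} (hω : ω ^ 3 = 1)
    (hR : G ∉ Ideal.span {(X 0 : MvPolynomial (Fin 3) k), X 1 - C ω})
    (h : Polynomial.aeval (X 0) c0 ∣ g1 β G) : c0.rootMultiplicity ω ≤ β := by
  obtain ⟨j, hj, hne⟩ := exists_j hβ hR
  have h1 := dvd_GV h j
  have h2 : (GV G).coeff j ≠ 0 := by
    intro h; rw [h] at hne; simp at hne
  have h3 : (GV G).coeff j * fy k ^ j ≠ 0 := mul_ne_zero h2 (pow_ne_zero _ fy_ne)
  have h4 : c0.rootMultiplicity ω ≤ ((GV G).coeff j * fy k ^ j).rootMultiplicity ω := by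
    rw [Polynomial.le_rootMultiplicity_iff h3]
    exact (Polynomial.pow_rootMultiplicity_dvd c0 ω).trans h1
  rw [Polynomial.rootMultiplicity_mul h3, Polynomial.rootMultiplicity_eq_zero hne, zero_add,
    rootMultiplicity_pow'] at h4
  have h5 := rootMultiplicity_fy_le hω
  calc c0.rootMultiplicity ω ≤ j * (fy k).rootMultiplicity ω := h4
    _ ≤ j * 1 := Nat.mul_le_mul_left _ h5
    _ ≤ β := by omega

/-! ### step 7 (ii) -/

lemma ev3_eq (G : MvPolynomial (Fin 3) k) :
    ev3 k G = Polynomial.eval₂ (algebraMap (Polynomial k) (QQ k)) (wQ k) (GS G) := by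
  rw [ev3, GS, aeval_three, aeval_three, ← Polynomial.coe_eval₂RingHom, map_sum]
  refine Finset.sum_congr rfl fun m _ => ?_
  have h : ((algebraMap k (TT k)) (coeff m G)) = Polynomial.C (Polynomial.C (coeff m G)) := rfl
  have h2 : (algebraMap k (QQ k)) (coeff m G) =
    algebraMap (Polynomial k) (QQ k) (Polynomial.C (coeff m G)) := rfl
  have h3 : yQ k = algebraMap (Polynomial k) (QQ k) Polynomial.X := rfl
  rw [h, h2, h3]
  simp [yT]

lemma mult_le_norm [CharZero k] {c0 : Polynomial k}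
    {G : MvPolynomial (Fin 3) k} {ω : k} (hω : ω ^ 3 = 1)
    (h : Polynomial.C c0 ∣ GT G) (hN : QuadraticAlgebra.norm (ev3 k G) ≠ 0) :
    c0.rootMultiplicity ω ≤ (QuadraticAlgebra.norm (ev3 k G)).rootMultiplicity ω := by
  set e := c0.rootMultiplicity ω with he
  set ι := algebraMap (Polynomial k) (QQ k) with hι
  obtain ⟨f', hf'⟩ : (Polynomial.X - Polynomial.C ω) ∣ fy k := by
    rw [Polynomial.dvd_iff_isRoot]
    simp [fy, hω]
  set u := (Polynomial.X - Polynomial.C ω) with hu
  have hcop : IsCoprime u f' := by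
    rw [hu, (Polynomial.irreducible_X_sub_C ω).coprime_iff_not_dvd]
    intro hdvd
    have h1 : u ^ 2 ∣ fy k := by
      rw [hf', sq]
      exact mul_dvd_mul_left _ hdvd
    have h2 := (Polynomial.le_rootMultiplicity_iff (fy_ne (k := k))).2 h1
    have h3 := rootMultiplicity_fy_le (k := k) hω
    omega
  have hw : ι u * ι f' = wQ k * wQ k := by
    rw [← map_mul, ← hf', wQ_mul_wQ]
    rfl
  have hue : u ^ e ∣ c0 := Polynomial.pow_rootMultiplicity_dvd c0 ω
  -- each term
  have key : ∀ i, ∃ z, ι f' ^ e * (ι ((GS G).coeff i) * wQ k ^ i) = wQ k ^ e * z := by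
    intro i
    rcases le_or_gt i e with hi | hi
    · have h1 : u ^ e ∣ (GS G).coeff i * fy k ^ i := hue.trans (dvd_GS h i)
      have h2 : u ^ (e - i) ∣ (GS G).coeff i := by
        rw [hf', mul_pow] at h1
        have h3 : u ^ i * u ^ (e - i) ∣ u ^ i * ((GS G).coeff i * f' ^ i) := by
          rw [← pow_add, Nat.add_sub_cancel' hi]
          convert h1 using 1
          ring
        have h4 := (mul_dvd_mul_iff_left (pow_ne_zero i
          (Polynomial.X_sub_C_ne_zero ω))).1 h3
        exact (hcop.pow).dvd_of_dvd_mul_right h4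
      obtain ⟨g', hg'⟩ := h2
      refine ⟨ι f' ^ i * ι g' * wQ k ^ (e - i), ?_⟩
      rw [hg', map_mul, map_pow]
      have h5 : ι f' ^ e = ι f' ^ i * ι f' ^ (e - i) := by
        rw [← pow_add, Nat.add_sub_cancel' hi]
      have h6 : wQ k ^ e = wQ k ^ i * wQ k ^ (e - i) := by
        rw [← pow_add, Nat.add_sub_cancel' hi]
      rw [h5, h6]
      have h7 : (ι u * ι f') ^ (e - i) = (wQ k * wQ k) ^ (e - i) := by rw [hw]
      rw [mul_pow, mul_pow] at h7
      linear_combination (ι f' ^ i * ι g' * wQ k ^ i) * h7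
    · refine ⟨ι f' ^ e * ι ((GS G).coeff i) * wQ k ^ (i - e), ?_⟩
      have h6 : wQ k ^ i = wQ k ^ e * wQ k ^ (i - e) := by
        rw [← pow_add, Nat.add_sub_cancel' hi.le]
      rw [h6]
      ring
  choose z hz using key
  have h1 : ι f' ^ e * ev3 k G = wQ k ^ e * ∑ i ∈ (GS G).support, z i := by
    rw [ev3_eq, Polynomial.eval₂_eq_sum, Polynomial.sum_def, Finset.mul_sum, Finset.mul_sum]
    exact Finset.sum_congr rfl fun i _ => hz i
  have h2 := congrArg QuadraticAlgebra.norm h1
  rw [map_mul, map_mul, map_pow, map_pow, norm_wQ, hι, QuadraticAlgebra.norm_algebraMap] at h2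
  rw [Polynomial.le_rootMultiplicity_iff hN]
  have h3 : u ^ e ∣ (f' ^ 2) ^ e * QuadraticAlgebra.norm (ev3 k G) := by
    rw [h2]
    refine Dvd.dvd.mul_right ?_ _
    refine pow_dvd_pow_of_dvd ?_ e
    rw [hf', dvd_neg]
    exact dvd_mul_right _ _
  exact ((hcop.pow_right (n := 2)).pow).dvd_of_dvd_mul_left h3

end KA2

/-- steps 6-8 of the key lemma -/
theorem key_a2 {k : Type u} [Field k] [IsAlgClosed k] [CharZero k]
    (G : MvPolynomial (Fin 3) k) (β a : ℕ)
    (c : MvPolynomial (Fin 3) k)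
    (hE : G ∉ Ideal.span {(X 2 : MvPolynomial (Fin 3) k), X 1 ^ 3 - 1 - X 0 ^ 2})
    (hR : ∀ ω : k, ω ^ 3 = 1 → G ∉ Ideal.span {(X 0 : MvPolynomial (Fin 3) k), X 1 - C ω})
    (hβ : degreeOf 2 G ≤ β) (hc : c ∣ g1 β G) (hca : c ∣ (f1 k * Fh1 k) ^ a) :
    ∃ c0 : Polynomial k, c0 ≠ 0 ∧ c = Polynomial.aeval (X 0) c0 ∧ h0 β G ≠ 0 ∧
      β + c0.natDegree ≤ (h0 β G).totalDegree := by
  classical
  obtain ⟨c0, h1, h2, h3, h4⟩ := KA2.exists_c0 hE hc hca
  obtain ⟨h5, h6⟩ := KA2.nine_beta β hE
  refine ⟨c0, h1, h2, h5, ?_⟩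
  have hN := KA2.norm_ne (KA2.ev3_ne hE)
  subst h2
  have hsplit : c0.natDegree = Multiset.card c0.roots :=
    IsAlgClosed.card_roots_eq_natDegree.symm
  -- degree at most 3 β
  have h7 : c0.natDegree ≤ 3 * β := by
    have h8 : c0.roots ≤ (KA2.fy k ^ β).roots := by
      rw [Multiset.le_iff_count]
      intro ω
      rw [Polynomial.count_roots, Polynomial.count_roots, KA2.rootMultiplicity_pow']
      by_cases hω : ω ∈ c0.roots
      · have hω3 := KA2.root_fy h1 h4 hω
        have h9 := KA2.mult_le_beta hβ hω3 (hR ω hω3) hc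
        have h10 : 1 ≤ (KA2.fy k).rootMultiplicity ω := by
          rw [Polynomial.le_rootMultiplicity_iff KA2.fy_ne, pow_one, Polynomial.dvd_iff_isRoot]
          simp [KA2.fy, hω3]
        calc _ ≤ β * 1 := by omega
          _ ≤ _ := Nat.mul_le_mul_left _ h10
      · rw [← Polynomial.count_roots, Multiset.count_eq_zero.2 hω]
        exact Nat.zero_le _
    have h9 := Multiset.card_le_card h8
    have h10 := Polynomial.card_roots' (KA2.fy k ^ β)
    rw [Polynomial.natDegree_pow, KA2.natDegree_fy] at h10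
    omega
  have h8 : c0.natDegree ≤ (QuadraticAlgebra.norm (KA2.ev3 k G)).natDegree := by
    have h8 : c0.roots ≤ (QuadraticAlgebra.norm (KA2.ev3 k G)).roots := by
      rw [Multiset.le_iff_count]
      intro ω
      rw [Polynomial.count_roots, Polynomial.count_roots]
      by_cases hω : ω ∈ c0.roots
      · exact KA2.mult_le_norm (KA2.root_fy h1 h4 hω) h3 hN
      · rw [← Polynomial.count_roots, Multiset.count_eq_zero.2 hω]
        exact Nat.zero_le _
    have h9 := Multiset.card_le_card h8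
    have h10 := Polynomial.card_roots' (QuadraticAlgebra.norm (KA2.ev3 k G))
    omega
  omega

end Helper50.D71
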