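import Pool.Agent.Helper60.D71.KeyDefs

/-!
# MP_d71e86_ag, block D1a, steps 6-8 (part a): the curve `s² = y³ - 1` and norms
-/

open MvPolynomial

universe u

namespace Helper50.D71

namespace KA2

section

variable (k : Type u) [Field k]

/-- `f = y³ - 1` in `k[y]` -/
noncomputable def fy : Polynomial k := Polynomial.X ^ 3 - 1

/-- `k[y][w]/(w² - f)` -/
abbrev QQ : Type u := QuadraticAlgebra (Polynomial k) (fy k) 0

/-- `y` in `QQ` -/
noncomputable def yQ : QQ k := ⟨Polynomial.X, 0⟩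
/-- `w` in `QQ` -/
noncomputable def wQ : QQ k := ⟨0, 1⟩

/-- `G ↦ G(w,y,0)` -/
noncomputable def ev3 : MvPolynomial (Fin 3) k →ₐ[k] QQ k := aeval ![wQ k, yQ k, 0]

/-- `H ↦ H(w,y)` -/
noncomputable def ev2 : MvPolynomial (Fin 2) k →ₐ[k] QQ k := aeval ![wQ k, yQ k]

end

variable {k : Type u} [Field k]

lemma fy_ne : fy k ≠ 0 := by
  intro h
  have := congrArg (Polynomial.eval 0) h
  simp [fy] at this

lemma natDegree_fy : (fy k).natDegree = 3 := by
  have : (fy k) = Polynomial.X ^ 3 - Polynomial.C 1 := by simp [fy]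
  rw [this]
  exact Polynomial.natDegree_X_pow_sub_C

lemma wQ_mul_wQ : wQ k * wQ k = ⟨fy k, 0⟩ := by
  ext1 <;> simp [wQ]

lemma norm_wQ : QuadraticAlgebra.norm (wQ k) = - fy k := by
  simp [QuadraticAlgebra.norm_def, wQ]

/-- every `G` is `A(y) + B(y) s` modulo `(v, F)` -/
lemma ev3_repr (G : MvPolynomial (Fin 3) k) :
    G - (Polynomial.aeval (X 1) (ev3 k G).re + Polynomial.aeval (X 1) (ev3 k G).im * X 0) ∈
      Ideal.span {(X 2 : MvPolynomial (Fin 3) k), X 1 ^ 3 - 1 - X 0 ^ 2} := by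
  set I := Ideal.span {(X 2 : MvPolynomial (Fin 3) k), X 1 ^ 3 - 1 - X 0 ^ 2} with hI
  have hX2 : (X 2 : MvPolynomial (Fin 3) k) ∈ I := Ideal.subset_span (by simp)
  have hF : (X 1 ^ 3 - 1 - X 0 ^ 2 : MvPolynomial (Fin 3) k) ∈ I := Ideal.subset_span (by simp)
  induction G using MvPolynomial.induction_on with
  | C a =>
    have : ev3 k (C a) = algebraMap k (QQ k) a := by simp [ev3]
    rw [this]
    have h1 : (algebraMap k (QQ k) a).re = Polynomial.C a := rfl
    have h2 : (algebraMap k (QQ k) a).im = 0 := rfl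
    rw [h1, h2]
    simp
  | add p q hp hq =>
    have := I.add_mem hp hq
    convert this using 1
    simp only [map_add, QuadraticAlgebra.re_add, QuadraticAlgebra.im_add]
    ring
  | mul_X p i hp =>
    have hm := I.mul_mem_right (X i) hp
    fin_cases i
    · have h1 : (ev3 k (p * X 0)) = ev3 k p * wQ k := by simp [ev3]
      have h2 : (ev3 k p * wQ k).re = fy k * (ev3 k p).im := by simp [wQ]
      have h3 : (ev3 k p * wQ k).im = (ev3 k p).re := by simp [wQ]
      simp only [Fin.zero_eta, Fin.isValue] at hm ⊢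
      rw [h1, h2, h3]
      have h4 : Polynomial.aeval (X 1 : MvPolynomial (Fin 3) k) (fy k) = X 1 ^ 3 - 1 := by
        simp [fy]
      rw [map_mul, h4]
      have h5 := I.sub_mem hm (I.mul_mem_left (Polynomial.aeval (X 1) (ev3 k p).im) hF)
      convert h5 using 1
      ring
    · have h1 : (ev3 k (p * X 1)) = ev3 k p * yQ k := by simp [ev3]
      have h2 : (ev3 k p * yQ k).re = (ev3 k p).re * Polynomial.X := by simp [yQ]
      have h3 : (ev3 k p * yQ k).im = (ev3 k p).im * Polynomial.X := by simp [yQ]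
      simp only [Fin.mk_one, Fin.isValue] at hm ⊢
      rw [h1, h2, h3]
      convert hm using 1
      simp only [map_mul, Polynomial.aeval_X]
      ring
    · have h1 : (ev3 k (p * X 2)) = 0 := by simp [ev3]
      simp only [Fin.reduceFinMk, Fin.isValue] at hm ⊢
      rw [h1]
      simpa using I.mul_mem_left p hX2

lemma ev3_ne {G : MvPolynomial (Fin 3) k}
    (hE : G ∉ Ideal.span {(X 2 : MvPolynomial (Fin 3) k), X 1 ^ 3 - 1 - X 0 ^ 2}) :
    ev3 k G ≠ 0 := by
  intro h
  apply hE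
  have := ev3_repr G
  rw [h] at this
  simpa using this

lemma norm_ne {z : QQ k} (hz : z ≠ 0) : QuadraticAlgebra.norm z ≠ 0 := by
  intro h
  rw [QuadraticAlgebra.norm_def] at h
  have h1 : z.re * z.re = fy k * (z.im * z.im) := by linear_combination h
  have h2 : z.im ≠ 0 := by
    intro h3
    rw [h3] at h1
    apply hz
    ext1
    · simpa using h1
    · exact h3
  have h3 : z.re ≠ 0 := by
    intro h3
    rw [h3] at h1
    have := mul_ne_zero (fy_ne (k := k)) (mul_ne_zero h2 h2)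
    exact this (by simpa using h1.symm)
  have h4 := congrArg Polynomial.natDegree h1
  rw [Polynomial.natDegree_mul h3 h3, Polynomial.natDegree_mul fy_ne (mul_ne_zero h2 h2),
    Polynomial.natDegree_mul h2 h2, natDegree_fy] at h4
  omega

/-! ### homogenised evaluation -/

section hev

variable {A B : Type*} [CommRing A] [Algebra k A] [CommRing B] [Algebra k B]

lemma map_hev (φ : A →ₐ[k] B) (β : ℕ) (G : MvPolynomial (Fin 3) k) (x y v N : A) :
    φ (hev β G x y v N) = hev β G (φ x) (φ y) (φ v) (φ N) := by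
  simp only [hev, map_sum, map_mul, map_pow, AlgHom.commutes]

lemma aeval_three (G : MvPolynomial (Fin 3) k) (x y v : A) :
    aeval ![x, y, v] G = ∑ m ∈ G.support, algebraMap k A (coeff m G) * x ^ m 0 * y ^ m 1 * v ^ m 2 := by
  rw [aeval_def, eval₂_eq']
  refine Finset.sum_congr rfl fun m _ => ?_
  rw [Fin.prod_univ_three]
  simp only [Matrix.cons_val_zero, Matrix.cons_val_one, Matrix.cons_val]
  ring

lemma hev_one (β : ℕ) (G : MvPolynomial (Fin 3) k) (x y v : A) :
    hev β G x y v 1 = aeval ![x, y, v] G := by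
  rw [aeval_three]
  simp [hev]

lemma hev_zero (β : ℕ) (G : MvPolynomial (Fin 3) k) (x y N : A) :
    hev β G x y 0 N = N ^ β * aeval ![x, y, 0] G := by
  rw [aeval_three, hev, Finset.mul_sum]
  refine Finset.sum_congr rfl fun m _ => ?_
  by_cases h : m 2 = 0
  · rw [h]; simp; ring
  · simp [zero_pow h]

end hev

/-! ### norms and degrees -/

lemma ev2_Fs : ev2 k (Fs k) = 0 := by
  have h : wQ k ^ 2 = ⟨fy k, 0⟩ := by rw [sq, wQ_mul_wQ]
  have h2 : yQ k ^ 3 = ⟨Polynomial.X ^ 3, 0⟩ := by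
    rw [pow_succ, pow_two]
    ext1 <;> simp [yQ, pow_succ]
  have : ev2 k (Fs k) = yQ k ^ 3 - 1 - wQ k ^ 2 := by simp [ev2, Fs]
  rw [this, h, h2, sub_sub, sub_eq_zero]
  refine QuadraticAlgebra.ext ?_ ?_
  · show (Polynomial.X ^ 3 : Polynomial k) = 1 + fy k
    simp [fy]
  · show (0 : Polynomial k) = 0 + 0
    simp

lemma ev2_h0 (β : ℕ) (G : MvPolynomial (Fin 3) k) :
    ev2 k (h0 β G) = (wQ k ^ 3 - yQ k) ^ β * ev3 k G := by
  rw [h0, map_hev]
  have h1 : ev2 k (-(X 0 * Fs k)) = 0 := by rw [map_neg, map_mul, ev2_Fs]; simp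
  rw [h1, hev_zero]
  simp [ev2, ev3]

lemma norm_w3y : QuadraticAlgebra.norm (wQ k ^ 3 - yQ k) = Polynomial.X ^ 2 - fy k ^ 3 := by
  have h : wQ k ^ 3 - yQ k = ⟨-Polynomial.X, fy k⟩ := by
    rw [pow_succ, sq, wQ_mul_wQ]
    ext1 <;> simp [wQ, yQ]
  rw [h, QuadraticAlgebra.norm_def]
  ring

lemma natDegree_w3y : (QuadraticAlgebra.norm (wQ k ^ 3 - yQ k)).natDegree = 9 := by
  rw [norm_w3y]
  have h : ((fy k) ^ 3).natDegree = 9 := by rw [Polynomial.natDegree_pow, natDegree_fy]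
  rw [Polynomial.natDegree_sub_eq_right_of_natDegree_lt, h]
  rw [h]
  simp

/-- pole orders: `y` has order 2 and `w` has order 3 -/
def Pol (D : ℕ) (z : QQ k) : Prop :=
  (∀ n, D < 2 * n → z.re.coeff n = 0) ∧ (∀ n, D < 2 * n + 3 → z.im.coeff n = 0)

lemma Pol.sum {ι : Type*} (s : Finset ι) (z : ι → QQ k) {D : ℕ} (h : ∀ i ∈ s, Pol D (z i)) :
    Pol D (∑ i ∈ s, z i) := by
  classical
  induction s using Finset.induction_on with
  | empty => simp [Pol]
  | insert i s hi ih =>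
    rw [Finset.sum_insert hi]
    have h1 := h i (Finset.mem_insert_self i s)
    have h2 := ih (fun j hj => h j (Finset.mem_insert_of_mem hj))
    refine ⟨fun n hn => ?_, fun n hn => ?_⟩
    · rw [QuadraticAlgebra.re_add, Polynomial.coeff_add, h1.1 n hn, h2.1 n hn, add_zero]
    · rw [QuadraticAlgebra.im_add, Polynomial.coeff_add, h1.2 n hn, h2.2 n hn, add_zero]

lemma wQ_pow (i : ℕ) : wQ k ^ (2 * i) = ⟨fy k ^ i, 0⟩ ∧ wQ k ^ (2 * i + 1) = ⟨0, fy k ^ i⟩ := by
  induction i with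
  | zero => exact ⟨by ext1 <;> simp [QuadraticAlgebra.re_one, QuadraticAlgebra.im_one],
      by ext1 <;> simp [wQ]⟩
  | succ i ih =>
    have h1 : wQ k ^ (2 * (i + 1)) = ⟨fy k ^ (i + 1), 0⟩ := by
      have : wQ k ^ (2 * (i + 1)) = wQ k ^ (2 * i + 1) * wQ k := by
        rw [← pow_succ]; rfl
      rw [this, ih.2]
      ext1
      · simp [wQ]; ring
      · simp [wQ]
    refine ⟨h1, ?_⟩
    rw [pow_succ, h1]
    ext1 <;> simp [wQ]

lemma yQ_pow (j : ℕ) : yQ k ^ j = ⟨Polynomial.X ^ j, 0⟩ := by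
  induction j with
  | zero => ext1 <;> simp [QuadraticAlgebra.re_one, QuadraticAlgebra.im_one]
  | succ i ih =>
    rw [pow_succ, ih]
    ext1 <;> simp [yQ, pow_succ]

lemma Pol.monomial (a : k) (i j : ℕ) {D : ℕ} (h : 3 * i + 2 * j ≤ D) :
    Pol D (algebraMap k (QQ k) a * (wQ k ^ i * yQ k ^ j)) := by
  have key : ∀ (l n : ℕ), 3 * l + j < n → (fy k ^ l * Polynomial.X ^ j).coeff n = 0 := by
    intro l n hn
    apply Polynomial.coeff_eq_zero_of_natDegree_lt
    refine lt_of_le_of_lt Polynomial.natDegree_mul_le ?_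
    rw [Polynomial.natDegree_pow, natDegree_fy, Polynomial.natDegree_X_pow]
    omega
  rw [yQ_pow]
  have ha : algebraMap k (QQ k) a = ⟨Polynomial.C a, 0⟩ := rfl
  rcases Nat.even_or_odd' i with ⟨l, rfl | rfl⟩
  · rw [(wQ_pow l).1, ha]
    refine ⟨fun n hn => ?_, fun n hn => ?_⟩
    · have : ((⟨Polynomial.C a, 0⟩ : QQ k) * ((⟨fy k ^ l, 0⟩ : QQ k) * ⟨Polynomial.X ^ j, 0⟩)).re =
          Polynomial.C a * (fy k ^ l * Polynomial.X ^ j) := by simp
      rw [this, Polynomial.coeff_C_mul, key l n (by omega), mul_zero]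
    · have : ((⟨Polynomial.C a, 0⟩ : QQ k) * ((⟨fy k ^ l, 0⟩ : QQ k) * ⟨Polynomial.X ^ j, 0⟩)).im =
          0 := by simp
      rw [this, Polynomial.coeff_zero]
  · rw [(wQ_pow l).2, ha]
    refine ⟨fun n hn => ?_, fun n hn => ?_⟩
    · have : ((⟨Polynomial.C a, 0⟩ : QQ k) * ((⟨0, fy k ^ l⟩ : QQ k) * ⟨Polynomial.X ^ j, 0⟩)).re =
          0 := by simp
      rw [this, Polynomial.coeff_zero]
    · have : ((⟨Polynomial.C a, 0⟩ : QQ k) * ((⟨0, fy k ^ l⟩ : QQ k) * ⟨Polynomial.X ^ j, 0⟩)).im =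
          Polynomial.C a * (fy k ^ l * Polynomial.X ^ j) := by simp
      rw [this, Polynomial.coeff_C_mul, key l n (by omega), mul_zero]

lemma Pol_ev2 (H : MvPolynomial (Fin 2) k) : Pol (3 * H.totalDegree) (ev2 k H) := by
  have h : ev2 k H = ∑ m ∈ H.support, algebraMap k (QQ k) (coeff m H) * (wQ k ^ m 0 * yQ k ^ m 1) := by
    rw [ev2, aeval_def, eval₂_eq']
    refine Finset.sum_congr rfl fun m _ => ?_
    rw [Fin.prod_univ_two]
    simp
  rw [h]
  refine Pol.sum _ _ fun m hm => Pol.monomial _ _ _ ?_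
  have h1 := MvPolynomial.le_totalDegree hm
  rw [Finsupp.sum_fintype _ _ (fun _ => rfl), Fin.sum_univ_two] at h1
  omega

lemma Pol.natDegree_norm {D : ℕ} {z : QQ k} (h : Pol D z) :
    (QuadraticAlgebra.norm z).natDegree ≤ D := by
  have h1 : 2 * z.re.natDegree ≤ D ∨ z.re = 0 := by
    by_contra hcon
    push Not at hcon
    have := h.1 z.re.natDegree hcon.1
    exact hcon.2 (Polynomial.leadingCoeff_eq_zero.1 this)
  have h2 : 2 * z.im.natDegree + 3 ≤ D ∨ z.im = 0 := by
    by_contra hcon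
    push Not at hcon
    have := h.2 z.im.natDegree hcon.1
    exact hcon.2 (Polynomial.leadingCoeff_eq_zero.1 this)
  have h3 : QuadraticAlgebra.norm z = z.re * z.re - fy k * z.im * z.im := by
    rw [QuadraticAlgebra.norm_def]; ring
  rw [h3]
  have h4 : (z.re * z.re).natDegree ≤ D := by
    rcases h1 with h1 | h1
    · exact Polynomial.natDegree_mul_le.trans (by omega)
    · simp [h1]
  have h5 : (fy k * z.im * z.im).natDegree ≤ D := by
    rcases h2 with h2 | h2
    · have a1 : (fy k * z.im).natDegree ≤ 3 + z.im.natDegree :=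
        Polynomial.natDegree_mul_le.trans (by rw [natDegree_fy])
      exact Polynomial.natDegree_mul_le.trans (by omega)
    · simp [h2]
  exact (Polynomial.natDegree_sub_le _ _).trans (max_le h4 h5)

/-- `9 β + n ≤ 3 deg h₀` -/
lemma nine_beta {G : MvPolynomial (Fin 3) k} (β : ℕ)
    (hE : G ∉ Ideal.span {(X 2 : MvPolynomial (Fin 3) k), X 1 ^ 3 - 1 - X 0 ^ 2}) :
    h0 β G ≠ 0 ∧ 9 * β + (QuadraticAlgebra.norm (ev3 k G)).natDegree ≤
      3 * (h0 β G).totalDegree := by
  have h1 : QuadraticAlgebra.norm (ev2 k (h0 β G)) =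
      (QuadraticAlgebra.norm (wQ k ^ 3 - yQ k)) ^ β * QuadraticAlgebra.norm (ev3 k G) := by
    rw [ev2_h0, map_mul, map_pow]
  have h2 := norm_ne (ev3_ne hE)
  have h3 : QuadraticAlgebra.norm (wQ k ^ 3 - yQ k) ≠ 0 := by
    intro h
    have := natDegree_w3y (k := k)
    rw [h] at this
    simp at this
  have h4 : (QuadraticAlgebra.norm (ev2 k (h0 β G))).natDegree =
      9 * β + (QuadraticAlgebra.norm (ev3 k G)).natDegree := by
    rw [h1, Polynomial.natDegree_mul (pow_ne_zero _ h3) h2, Polynomial.natDegree_pow,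
      natDegree_w3y]
    ring
  refine ⟨?_, ?_⟩
  · intro h
    rw [h, map_zero, QuadraticAlgebra.norm_zero] at h1
    exact mul_ne_zero (pow_ne_zero _ h3) h2 h1.symm
  · rw [← h4]
    exact (Pol_ev2 _).natDegree_norm

end KA2

end Helper50.D71
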