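import Pool.Agent.Helper60.D71.KeyA2a

/-!
# MP_d71e86_ag, block D1a, steps 6-8 (part b): the common divisor lies in `k[y]`
-/

open MvPolynomial

universe u

namespace Helper50.D71

namespace KA2

variable {k : Type u} [Field k]

/-- `k[y][q]` -/
abbrev TT (k : Type u) [Field k] : Type u := Polynomial (Polynomial k)

/-- `y` in `k[y][q]` -/
noncomputable def yT (k : Type u) [Field k] : TT k := Polynomial.C Polynomial.X

/-- `f` in `k[y][q]` -/
noncomputable def fT (k : Type u) [Field k] : TT k := Polynomial.C (fy k)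

lemma yT_pow : yT k ^ 3 - 1 = fT k := by
  simp [yT, fT, fy]

/-- elements of `k[y,p,q]` without `p` -/
noncomputable def Phi (k : Type u) [Field k] : TT k →+* MvPolynomial (Fin 3) k :=
  Polynomial.eval₂RingHom (Polynomial.aeval (X 0 : MvPolynomial (Fin 3) k)).toRingHom (X 2)

lemma Phi_C (c : Polynomial k) : Phi k (Polynomial.C c) = Polynomial.aeval (X 0) c := by
  simp [Phi]

lemma mem_range_Phi {c : MvPolynomial (Fin 3) k} (hc : degreeOf 1 c = 0) :
    ∃ z, Phi k z = c := by
  refine ⟨∑ m ∈ c.support, Polynomial.C (Polynomial.C (coeff m c) * Polynomial.X ^ m 0) *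
    Polynomial.X ^ m 2, ?_⟩
  rw [map_sum]
  conv_rhs => rw [c.as_sum]
  refine Finset.sum_congr rfl fun m hm => ?_
  have h1 : m 1 = 0 := by
    have := MvPolynomial.le_degreeOf_of_mem_support  1 hm
    omega
  rw [map_mul, map_pow, Phi_C, map_mul, map_pow, Polynomial.aeval_C, Polynomial.aeval_X]
  have h2 : Phi k Polynomial.X = X 2 := by simp [Phi]
  rw [h2, MvPolynomial.monomial_eq, Finsupp.prod_fintype _ _ (fun _ => pow_zero _),
    Fin.prod_univ_three, h1]
  simp [MvPolynomial.algebraMap_eq]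
  ring

/-- `b ↦ 0` : `y ↦ y`, `p ↦ -y² q`, `q ↦ q` -/
noncomputable def tau (k : Type u) [Field k] : MvPolynomial (Fin 3) k →ₐ[k] TT k :=
  aeval ![yT k, -(yT k ^ 2 * Polynomial.X), Polynomial.X]

lemma tau_Phi (z : TT k) : tau k (Phi k z) = z := by
  induction z using Polynomial.induction_on' with
  | add p q hp hq => rw [map_add, map_add, hp, hq]
  | monomial n a =>
    rw [← Polynomial.C_mul_X_pow_eq_monomial, map_mul, map_pow, Phi_C]
    have h2 : Phi k Polynomial.X = X 2 := by simp [Phi]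
    rw [h2, map_mul, map_pow]
    have h3 : tau k (X 2) = Polynomial.X := by simp [tau]
    rw [h3]
    congr 1
    rw [← Polynomial.aeval_algHom_apply]
    have h4 : tau k (X 0) = yT k := by simp [tau]
    rw [h4]
    induction a using Polynomial.induction_on' with
    | add p q hp hq => rw [map_add, map_add, hp, hq]
    | monomial n a =>
      rw [← Polynomial.C_mul_X_pow_eq_monomial]
      simp [yT, Polynomial.C_pow]

lemma tau_f1 : tau k (f1 k) = fT k := by
  simp only [f1, tau, map_sub, map_pow, aeval_X, map_one, Matrix.cons_val_zero]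
  exact yT_pow

lemma tau_b1 : tau k (b1 k) = 0 := by
  simp [b1, tau]

lemma tau_N1 : tau k (N1 k) = 1 := by
  rw [N1, map_add, map_mul, tau_b1]; simp

lemma tau_Fh1 : tau k (Fh1 k) = 1 - fT k * Polynomial.X ^ 2 := by
  rw [Fh1, map_sub, map_mul, tau_f1]; simp [tau]

/-- `G(q f, y, 0)` -/
noncomputable def GT (G : MvPolynomial (Fin 3) k) : TT k :=
  aeval ![Polynomial.X * fT k, yT k, 0] G

lemma tau_g1 (β : ℕ) (G : MvPolynomial (Fin 3) k) : tau k (g1 β G) = GT G := by
  rw [g1, map_hev, tau_N1, hev_one]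
  have h1 : tau k (X 2 * f1 k) = Polynomial.X * fT k := by rw [map_mul, tau_f1]; simp [tau]
  have h2 : tau k (-(b1 k * f1 k * Fh1 k)) = 0 := by
    rw [map_neg, map_mul, map_mul, tau_b1]; simp
  have h3 : tau k (X 0) = yT k := by simp [tau]
  rw [h1, h2, h3]
  rfl

lemma Fh_dvd (G : MvPolynomial (Fin 3) k) :
    (1 - fT k * Polynomial.X ^ 2) ∣ GT G -
      (Polynomial.C (ev3 k G).re + Polynomial.C (ev3 k G).im * (Polynomial.X * fT k)) := by
  have h := ev3_repr G
  rw [Ideal.mem_span_pair] at h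
  obtain ⟨a, b, hab⟩ := h
  have h2 := congrArg (aeval ![Polynomial.X * fT k, yT k, 0] :
    MvPolynomial (Fin 3) k → TT k) hab
  simp only [map_add, map_mul, map_sub, map_pow, map_one, aeval_X, Matrix.cons_val_zero,
    Matrix.cons_val_one, Matrix.cons_val, mul_zero, zero_add] at h2
  have h3 : ∀ c : Polynomial k, (aeval ![Polynomial.X * fT k, yT k, 0] :
      MvPolynomial (Fin 3) k →ₐ[k] TT k) (Polynomial.aeval (X 1) c) = Polynomial.C c := by
    intro c
    rw [← Polynomial.aeval_algHom_apply]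
    have h4 : (aeval ![Polynomial.X * fT k, yT k, 0] :
      MvPolynomial (Fin 3) k →ₐ[k] TT k) (X 1) = yT k := by simp
    rw [h4]
    induction c using Polynomial.induction_on' with
    | add p q hp hq => rw [map_add, map_add, hp, hq]
    | monomial n a =>
      rw [← Polynomial.C_mul_X_pow_eq_monomial]
      simp [yT, Polynomial.C_pow]
  rw [h3, h3, yT_pow] at h2
  refine ⟨(aeval ![Polynomial.X * fT k, yT k, 0]) b * fT k, ?_⟩
  rw [GT, ← h2]
  ring

lemma isRelPrime_Fh {G : MvPolynomial (Fin 3) k}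
    (hE : G ∉ Ideal.span {(X 2 : MvPolynomial (Fin 3) k), X 1 ^ 3 - 1 - X 0 ^ 2})
    {z : TT k} (hz : z ∣ GT G) : IsRelPrime z (1 - fT k * Polynomial.X ^ 2) := by
  intro d hd1 hd2
  have h1 : d ∣ Polynomial.C (ev3 k G).re + Polynomial.C (ev3 k G).im * (Polynomial.X * fT k) :=
    (dvd_sub_right (hd1.trans hz)).1 (hd2.trans (Fh_dvd G))
  have h2 : d ∣ Polynomial.C (QuadraticAlgebra.norm (ev3 k G)) := by
    have h3 : Polynomial.C (QuadraticAlgebra.norm (ev3 k G)) =
        (Polynomial.C (ev3 k G).re + Polynomial.C (ev3 k G).im * (Polynomial.X * fT k)) *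
        (Polynomial.C (ev3 k G).re - Polynomial.C (ev3 k G).im * (Polynomial.X * fT k)) -
        (1 - fT k * Polynomial.X ^ 2) * (Polynomial.C (ev3 k G).im ^ 2 * fT k) := by
      rw [QuadraticAlgebra.norm_def, fT]
      simp only [map_sub, map_add, map_mul, map_zero]
      ring
    rw [h3]
    exact dvd_sub (h1.mul_right _) (hd2.mul_right _)
  have h3 := norm_ne (ev3_ne hE)
  have h4 : d.natDegree = 0 := by
    have := Polynomial.natDegree_le_of_dvd h2 (Polynomial.C_ne_zero.2 h3)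
    simpa using this
  obtain ⟨d0, rfl⟩ := Polynomial.natDegree_eq_zero.1 h4
  rw [Polynomial.C_dvd_iff_dvd_coeff] at hd2
  have h5 := hd2 0
  have h6 : (1 - fT k * Polynomial.X ^ 2 : TT k).coeff 0 = 1 := by
    simp [Polynomial.coeff_zero_eq_eval_zero]
  rw [h6] at h5
  exact (Polynomial.isUnit_C).2 (isUnit_of_dvd_one h5)

/-- step 6 -/
lemma exists_c0 {G : MvPolynomial (Fin 3) k}
    (hE : G ∉ Ideal.span {(X 2 : MvPolynomial (Fin 3) k), X 1 ^ 3 - 1 - X 0 ^ 2})
    {β a : ℕ} {c : MvPolynomial (Fin 3) k} (hc : c ∣ g1 β G) (hca : c ∣ (f1 k * Fh1 k) ^ a) :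
    ∃ c0 : Polynomial k, c0 ≠ 0 ∧ c = Polynomial.aeval (X 0) c0 ∧ Polynomial.C c0 ∣ GT G ∧
      c0 ∣ fy k ^ a := by
  have hne : (f1 k * Fh1 k) ^ a ≠ 0 := by
    intro h
    have h2 := congrArg (eval (0 : Fin 3 → k)) h
    simp [f1, Fh1] at h2
  have hc0 : c ≠ 0 := by
    rintro rfl
    exact hne (zero_dvd_iff.1 hca)
  -- `c` has no `p`
  have h1 : degreeOf 1 c = 0 := by
    obtain ⟨d, hd⟩ := hca
    have hd0 : d ≠ 0 := by
      rintro rfl
      exact hne (by rw [hd, mul_zero])
    have h2 := degreeOf_mul_eq (n := (1 : Fin 3)) hc0 hd0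
    rw [← hd] at h2
    have h3 : degreeOf 1 ((f1 k * Fh1 k) ^ a) = 0 := by
      have hX0 : degreeOf (1 : Fin 3) (X 0 : MvPolynomial (Fin 3) k) = 0 := by
        rw [degreeOf_X]; simp
      have hX2 : degreeOf (1 : Fin 3) (X 2 : MvPolynomial (Fin 3) k) = 0 := by
        rw [degreeOf_X]; simp
      have hf : degreeOf (1 : Fin 3) (f1 k) = 0 := by
        have h4 : f1 k = X 0 ^ 3 - C 1 := by simp [f1]
        rw [h4]
        have := degreeOf_sub_le (1 : Fin 3) (X 0 ^ 3 : MvPolynomial (Fin 3) k) (C 1)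
        have h5 := degreeOf_pow_le (1 : Fin 3) (X 0 : MvPolynomial (Fin 3) k) 3
        rw [degreeOf_C] at this
        omega
      have hF : degreeOf (1 : Fin 3) (Fh1 k) = 0 := by
        have h4 : Fh1 k = C 1 - f1 k * X 2 ^ 2 := by simp [Fh1]
        rw [h4]
        have := degreeOf_sub_le (1 : Fin 3) (C 1 : MvPolynomial (Fin 3) k) (f1 k * X 2 ^ 2)
        have h5 := degreeOf_pow_le (1 : Fin 3) (X 2 : MvPolynomial (Fin 3) k) 2
        have h6 := degreeOf_mul_le (1 : Fin 3) (f1 k) (X 2 ^ 2)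
        rw [degreeOf_C] at this
        omega
      have h7 := degreeOf_mul_le (1 : Fin 3) (f1 k) (Fh1 k)
      have h8 := degreeOf_pow_le (1 : Fin 3) (f1 k * Fh1 k) a
      rw [hf, hF] at h7
      have h9 : degreeOf (1 : Fin 3) (f1 k * Fh1 k) = 0 := by omega
      rw [h9] at h8
      omega
    omega
  obtain ⟨z, rfl⟩ := mem_range_Phi h1
  have hz1 : z ∣ GT G := by
    have := map_dvd (tau k) hc
    rwa [tau_Phi, tau_g1] at this
  have hz2 : z ∣ (fT k * (1 - fT k * Polynomial.X ^ 2)) ^ a := by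
    have := map_dvd (tau k) hca
    rwa [tau_Phi, map_pow, map_mul, tau_f1, tau_Fh1] at this
  have hrel := isRelPrime_Fh hE hz1
  have hz3 : z ∣ fT k ^ a := by
    rw [mul_pow] at hz2
    exact (hrel.pow_right).dvd_of_dvd_mul_right hz2
  have hz4 : fT k ^ a = Polynomial.C (fy k ^ a) := by rw [fT, Polynomial.C_pow]
  rw [hz4] at hz3
  have h4 : z.natDegree = 0 := by
    have := Polynomial.natDegree_le_of_dvd hz3
      (Polynomial.C_ne_zero.2 (pow_ne_zero _ (fy_ne (k := k))))
    simpa using this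
  obtain ⟨c0, rfl⟩ := Polynomial.natDegree_eq_zero.1 h4
  refine ⟨c0, ?_, Phi_C c0, hz1, ?_⟩
  · rintro rfl
    apply hc0
    simp
  · have := (Polynomial.C_dvd_iff_dvd_coeff _ _).1 hz3 0
    rwa [Polynomial.coeff_C_zero] at this

end KA2

end Helper50.D71
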