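import Pool.Agent.Helper48.D71.AlgInd

/-!
# MP_d71e86_ag, block D1a: definitions (homogenised evaluation, elements of `k[y,p,q]` and `k[s,y]`)
-/

open MvPolynomial

universe u

namespace Helper50.D71

/-- homogenised evaluation of `G(x,y,v)`: `∑ a_m x^{m 0} y^{m 1} v^{m 2} N^{β - m 2}` -/
noncomputable def hev {k : Type u} [Field k] {A : Type*} [CommRing A] [Algebra k A] (β : ℕ)
    (G : MvPolynomial (Fin 3) k) (x y v N : A) : A :=
  ∑ m ∈ G.support, algebraMap k A (coeff m G) * x ^ m 0 * y ^ m 1 * v ^ m 2 * N ^ (β - m 2)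

section

variable (k : Type u) [Field k]

/-- `f = y³ - 1` in `k[y,p,q]` -/
noncomputable def f1 : MvPolynomial (Fin 3) k := X 0 ^ 3 - 1
/-- `b = -p - y² q` -/
noncomputable def b1 : MvPolynomial (Fin 3) k := -X 1 - X 0 ^ 2 * X 2
/-- `N = 1 + f² q² b` -/
noncomputable def N1 : MvPolynomial (Fin 3) k := 1 + f1 k ^ 2 * X 2 ^ 2 * b1 k
/-- `Fh = 1 - f q²` -/
noncomputable def Fh1 : MvPolynomial (Fin 3) k := 1 - f1 k * X 2 ^ 2

/-- `F = y³ - 1 - s²` in `k[s,y]` -/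
noncomputable def Fs : MvPolynomial (Fin 2) k := X 1 ^ 3 - 1 - X 0 ^ 2

variable {k}

/-- `N^β G(q f, y, -b f Fh / N)` -/
noncomputable def g1 (β : ℕ) (G : MvPolynomial (Fin 3) k) : MvPolynomial (Fin 3) k :=
  hev β G (X 2 * f1 k) (X 0) (-(b1 k * f1 k * Fh1 k)) (N1 k)

/-- `(s³-y)^β G(s, y, -s F/(s³-y))` -/
noncomputable def h0 (β : ℕ) (G : MvPolynomial (Fin 3) k) : MvPolynomial (Fin 2) k :=
  hev β G (X 0) (X 1) (-(X 0 * Fs k)) (X 0 ^ 3 - X 1)

end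

end Helper50.D71
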